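import Pool.Agent.Lib.MP_1a0ddd_nt.Nc.Fin

/-!
# Fibrations in curves over arbitrary base varieties

Let `R` be any finitely generated domain of characteristic zero, `Z = Spec R`, and let `X → Y` be
a fibration in curves of varieties over `Z`, with geometrically irreducible generic fibre `C`, such
that `X` and `Y` are birational to iterated conic bundles over `Z` (for instance to affine spaces
over `Z`, or to iterated quadric bundles). The theorem is Q1 for `C`: the Tauberian mean of the
averages of the traces of Frobenius of the fibres is minus the rank of `Pic⁰(C)`.

Nothing is assumed about `Z`, and no hypothesis on numbers of points remains: the theorem of Lang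
and Weil for all arithmetic schemes and the prime ideal theorem of Landau are proved in the files
which are imported.

The variety `X` is `Spec S` and `Y` is `Spec T`. The closed points of the complete curve `C` are the
valuation rings of the function field of `X` which contain the function field of `Y`; `ClGp` is the
divisor class group of `C`, of rank `1 + rank Pic⁰(C)`. The fibre `C_τ` of `C` over an `F_p`-point
`τ` of a small open subset of `Y` consists of the points over `τ` of the open subset `g ≠ 0` of
`X` and of the models of the residue fields at the remaining closed points of `C`.
-/

set_option autoImplicit false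

namespace Pool.Agent.Results.MP_1a0ddd_nt.CurveFibrations

open Pool.Agent.Lib.MP_1a0ddd_nt Pool.Agent.Lib.MP_1a0ddd_nt.Cf

theorem result (R T S : Type) [CommRing R] [CommRing T] [IsDomain T] [CommRing S] [IsDomain S]
    [Algebra R T] [Algebra R S] (d n : ℕ) (hR : Un.BaseVar R d) (φ : T →ₐ[R] S)
    (hφ : ConicFib (FractionRing T) (FractionRing S) φ (algebraMap S (FractionRing S)) n) :
    Nagao (φ : T →+* S) (algebraMap S (FractionRing S)) (n + d) :=
  fin_nagao hR φ hφ

end Pool.Agent.Results.MP_1a0ddd_nt.CurveFibrations
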