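import Pool.Agent.Lib.MP_1a0ddd_nt.Pu.Fin

/-!
# Linear pencils of plane curves over arbitrary base varieties

Let `R` be any finitely generated domain of characteristic zero, `K` its fraction field and
`F + t G` a pencil of plane curves over `R`, that is, a family of curves over `Y = Spec R[t]`. The
theorem is Q1 for the generic curve, with an explicit rank: the Tauberian mean of the averages of
the traces of Frobenius of the fibres is minus the rank. No case of the Tate conjecture and no
hypothesis about numbers of points is used; the theorem of Lang, Weil and Landau on the number of
points of arithmetic schemes is proved in the files which are imported.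

PART 1. `F` is a `C_{ab}` polynomial, `G` has smaller weight. The fibres are curves with one point
at infinity, so `p - #{F + t G = 0}` is the trace of Frobenius, and the Picard group of the affine
curve over `K(t)` is the group of rational points of the Jacobian. Special case: all elliptic and
all odd hyperelliptic Weierstrass equations with coefficients of degree at most `1` in `t`. The
rank is the number of base points minus the number of components of `G = 0` over `K`.

PART 2. All pencils of projective plane curves of degree `δ` without a base point in the affine
plane which is singular on both `F = 0` and `G = 0` (coordinates such that `F` contains `y^δ` and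
`G` does not). Reducible members are allowed over the zeros of `B(t)`; these fibres are left out of
the average. The number `ρ` is the rank of `Pic⁰` of the projective curve over `K(t)`.
-/

set_option autoImplicit false

namespace Pool.Agent.Results.MP_1a0ddd_nt.PlanePencils

open Polynomial Pool.Agent.Lib.MP_1a0ddd_nt Pool.Agent.Lib.MP_1a0ddd_nt.V
  Pool.Agent.Lib.MP_1a0ddd_nt.Pu

theorem result (R : Type) [CommRing R] [IsDomain R] (d : ℕ) (hR : Un.BaseVar R d) :
    (∀ (a b : ℕ) (F G : R[X][X]), CabPen a b F G →
      ∃ r : ℕ, RankC (algebraMap R (FractionRing R)) F G r ∧ NagaoCU F G d r) ∧
    (∀ (δ : ℕ) (F G : R[X][X]) (B : R[X]), PlanePencil δ F G → B ≠ 0 → IrrGeneric F G B →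
      ∃ ρ : ℤ, RankP (algebraMap R (FractionRing R)) δ F G B ρ ∧ NagaoPU δ F G B d ρ) :=
  ⟨fun _ _ _ _ h => fin_cab hR h, fun _ _ _ _ h hB hirr => fin_plane hR h hB hirr⟩

end Pool.Agent.Results.MP_1a0ddd_nt.PlanePencils
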