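import Pool.Agent.Lib.MP_1a0ddd_nt.Cpl.Fin

/-!
# Nagao's conjecture for all hyperelliptic families of degree at most two in the parameter

Let `R` be any finitely generated domain of characteristic zero, of transcendence degree `d` over `ℤ`,
`a, b, c ∈ R[x]` and `F = a(x) t² + 2 b(x) t + c(x)`. The only hypotheses (`Family`): `F` is
squarefree over the fraction field of `R` (`b² ≠ a c` and no `q²`, `q` a nonconstant polynomial in
`x`, divides `a`, `b` and `c`) and of positive degree in `x`, `2g + 1` or `2g + 2`. So `y² = F(x, t)`
is an arbitrary family of hyperelliptic (elliptic, rational) curves of degree at most two in `t`,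
over the base `Y = Spec R[t]`.

For a field `L` containing `R` let `r_L` (`jacRank`) be the number of the closed points `ξ` of the
projective `x`-line over `L` such that `F(ξ, t)` is the square of a nonzero polynomial in `t`, minus
the number of the closed points `τ` of the projective `t`-line over `L` such that `F(x, τ)` is the
square of a nonzero polynomial in `x` (`splitSet`, `memSet`: the finite points; at `x = ∞` the
polynomial `F` becomes its coefficient `topC F` at `x^(2g+2)`, at `t = ∞` it becomes `a`).

RANK (`RankOverAll`). Over every field `L` containing `R` the affine curve `y² = F` over `K = L(t)` is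
regular, and the divisor class group of the complete regular curve `C` with the same function field
is finitely generated of rank `r_L + 1`. So the group `Pic⁰(C)`, and with it the group `J(K)` of
the rational points of the Jacobian, in which it has torsion quotient, has rank exactly `r_L`; as `L`
may be algebraically closed, the trace of `J` in `L` is zero.

LIMIT (`NagaoLimit`). For `u ∈ Y(F_p)` let `C_u : y² = F_u(x)` be the fibre of the family of complete
curves; its points at infinity are the square roots of the value of `topC F`. There is `D₀ ≠ 0` in
`R[t]` such that for all `D ≠ 0` in `R[t]` divisible by `D₀` the average of the traces of Frobenius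
`p + 1 - #C_u(F_p)` over the `F_p`-points `u` of the open subset `{D ≠ 0}` of `Y` tends in the
Tauberian mean to `-r`, where `r = r_L` for `L = Frac R`.

There is no hypothesis on the base: the theorems of Lang, Weil and Landau on the number of the
`F_p`-points of a finitely generated domain are proved in the library of this problem (`LW`). If `R`
contains `O_k[1/N]` for a number field `k`, the homomorphisms `R[t] → F_p` are the pairs of a prime
`𝔭` of degree one of `k` over `p` and an `F_𝔭`-point of `Y`; the other primes of `k` do not
contribute to the limit.
-/

set_option autoImplicit false

namespace Pool.Agent.Results.MP_1a0ddd_nt.QuadraticPencils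

open Polynomial Pool.Agent.Lib.MP_1a0ddd_nt Pool.Agent.Lib.MP_1a0ddd_nt.Quad

theorem result :
    ∀ (R : Type) [CommRing R] [IsDomain R] [CharZero R] [Algebra.FiniteType ℤ R] (d : ℕ),
      Algebra.trdeg ℤ R = (d : Cardinal) →
      ∀ a b c : R[X], Hyp.Family a b c →
        Cpl.RankOverAll a b c ∧
        Cpl.NagaoLimit (quad a b c) (d + 1) (Cpl.jacRank (toF a) (toF b) (toF c)) := by
  intro R _ _ _ _ d hd a b c h
  exact Cpl.main R d hd a b c h

end Pool.Agent.Results.MP_1a0ddd_nt.QuadraticPencils
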