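import Pool.Agent.Lib.MP_1a0ddd_nt.Tf.Fin

/-!
# Two fibrations in curves on one variety

Let `R` be any finitely generated domain of characteristic zero, `Z = Spec R`, and let `X → Y` and
`X' → Y'` be two fibrations in curves of varieties over `Z`, with geometrically irreducible generic
fibres `C` and `C'`. Suppose that `X'` is birational to `X`, and that `Y'` is obtained from `Y` by
birational equivalences and conic bundles (upwards and downwards). The theorem is Q1 for the
difference of the two fibrations: the Tauberian mean of the difference of the averages of the traces
of Frobenius of the fibres of `X → Y` and of `X' → Y'` is `rank Cl(C') - rank Cl(C)`, the difference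
of the ranks of `Pic⁰(C')` and of `Pic⁰(C)`. So Q1 for `X → Y` and Q1 for `X' → Y'` are equivalent:
the Albanese varieties of `X` and `X'` are isogenous, and those of `Y` and `Y'`, hence also the traces
of the two Jacobians in the constant field, whose contributions cancel.

Nothing is assumed about `Z` and `X`; the Tate conjecture for `X` and `Y` is open in general. The
class group of the generic fibre of `Y → Z` is killed by removing a divisor (`Fac`); this is true for
all `Y` by the theorem of Lang and Néron, and it is proved here if `Y` is obtained from `Z` by
birational equivalences and conic bundles (the first part of the theorem). The groups `Cl(C)` and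
`Cl(C')` are not assumed to be finitely generated: they become isomorphic after dividing by finitely
generated subgroups, and the difference of the ranks is that of the ranks of these subgroups
(`RankDiff`); if one of the groups is finitely generated so is the other.
-/

set_option autoImplicit false

namespace Pool.Agent.Results.MP_1a0ddd_nt.TwoFibrations

open Pool.Agent.Lib.MP_1a0ddd_nt Pool.Agent.Lib.MP_1a0ddd_nt.Tf

theorem result (R : Type) [CommRing R] [IsDomain R] [CharZero R] [Algebra.FiniteType ℤ R] :
    (∀ T : Dom R, Linked (base R) T → Fac T) ∧
    ∀ (T S T' S' : Dom R) (φ : T.W →ₐ[R] S.W) (φ' : T'.W →ₐ[R] S'.W) (e e' : ℕ),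
      Fib φ → Fib φ' → Fac T → Linked T T' → Birat S S' →
      Algebra.trdeg ℤ T.W = e → Algebra.trdeg ℤ T'.W = e' → Same φ φ' e e' := by
  obtain ⟨d, hR⟩ := base_var R
  exact ⟨fun _ h => fac_class hR h, fun _ _ _ _ φ φ' _ _ hφ hφ' hF hT hS he he' =>
    same hR φ φ' hφ hφ' hT hF hS he he'⟩

end Pool.Agent.Results.MP_1a0ddd_nt.TwoFibrations
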